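import Pool.Agent.H937.QS.Stm3

/-!
Project QS (helper937): the symmetric group on four letters. (helper30)
-/

set_option autoImplicit false

open scoped Matrix TensorProduct
open Pool.Agent.H937.QS
open Pool.Agent.W559.Wr

universe u

namespace Pool.Agent.H30.QS.QQ4

theorem exists_sq_ne (k : Type u) [Field k] [Infinite k] : ∃ a : k, a ^ 2 ≠ a := by
  by_contra h
  push Not at h
  have hsub : (Set.univ : Set k) ⊆ {0, 1} := by
    rintro a -
    have h1 : a * (a - 1) = 0 := by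
      have h2 := h a
      linear_combination h2
    rcases mul_eq_zero.1 h1 with h2 | h2
    · exact Or.inl h2
    · exact Or.inr (sub_eq_zero.1 h2)
  exact Set.infinite_univ (((Set.finite_singleton (1 : k)).insert 0).subset hsub)

theorem Zp4_mono {M : Type u} [Field M] (F F' : Set (Fin 4 → M)) (hF : F ⊆ F') :
    Zp4 F ⊆ Zp4 F' := by
  rintro ζ ⟨h, x, y, z, X, h1, h2, h3, h4, h5⟩
  exact ⟨h, x, y, z, X, fun i => hF (h1 i), hF h2, hF h3, hF h4, h5⟩

theorem t_QQ4 (hFAM : S_FAM.{u}) (hGLUE : S_GLUE.{u}) (hCOP : S_COP.{u}) (hDIST : S_DIST.{u}) :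
    S_QQ4.{u} := by
  intro k _ _ K M _ _ _ _ e hLD htop A hA
  by_cases hsurj : ∀ x : K, ∃ c : k, algebraMap k K c = x
  · exact (hDIST k K M 4 e hLD).2 hsurj htop _ _
  · refine hGLUE k K M 4 e hLD htop Zp4 Zp4_mono ?_ A hA
    intro B hB hfrac
    obtain ⟨b0, hb0, hb0'⟩ : ∃ b0 ∈ B, ∀ c : k, algebraMap k K c ≠ b0 := by
      by_contra hcon
      push Not at hcon
      apply hsurj
      intro x
      obtain ⟨a, ha, b, hb, hb', rfl⟩ := hfrac x
      obtain ⟨c, rfl⟩ := hcon a ha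
      obtain ⟨d, rfl⟩ := hcon b hb
      exact ⟨c / d, map_div₀ _ _ _⟩
    obtain ⟨a, ha⟩ := exists_sq_ne k
    obtain ⟨R, _, _, j, γ, hj, hγ, hjγ⟩ := hCOP k K M 4 e hLD B
    have _ : Algebra.Smooth k B := hB
    exact hFAM k B R M a ha j hj γ hγ (evK e B) (fun b q => (hjγ b q).symm) ⟨b0, hb0⟩
      ((hDIST k K M 4 e hLD).1 b0 hb0')

end Pool.Agent.H30.QS.QQ4
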